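import Mathlib

/-!
# Complex multiplication, in coordinates
-/

set_option autoImplicit false

namespace Pool.Agent.K6.H94.CM

open Matrix

/-- Let `D` be the Hodge operator on `H_1(A, ℂ)` in a rational basis (it is `1` on the tangent space and
`-1` on its complex conjugate). The abelian variety `A` has complex multiplication: the space `H^1(A, ℂ)`
has a basis, the rows `e s` of an invertible matrix, which consists of eigenvectors of the Hodge
operator and is permuted by the automorphisms of the field of complex numbers.

If `A` is isogenous to a product of abelian varieties of CM types `(E_i, Φ_i)`, then `H_1(A, ℚ)` is the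
product of the fields `E_i`, and the `e s` are the embeddings of the fields `E_i` in `ℂ`. -/
def IsCM {B : Type} [Fintype B] [DecidableEq B] (D : Matrix B B ℂ) : Prop :=
  ∃ (e : Matrix B B ℂ) (ε : B → ℤ), IsUnit e ∧ (∀ s, ε s = 1 ∨ ε s = -1) ∧
    e * D = diagonal (fun s => (ε s : ℂ)) * e ∧
      ∀ σ : ℂ ≃+* ℂ, ∃ π : Equiv.Perm B, ∀ s j, σ (e s j) = e (π s) j

end Pool.Agent.K6.H94.CM
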