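import Mathlib
import Pool.Agent.TH119.MX.Gal
import Pool.Agent.K6.H94.DL.ClsP
import Pool.Agent.K6.H94.CM.Defs

/-!
# Tensors in a basis of eigenvectors
-/

set_option linter.unusedSectionVars false

namespace Pool.Agent.K6.H94.CM

open Matrix Equiv Pool.Agent.H204R3.SP Pool.Agent.W437.HC Pool.Agent.W437.HD Pool.Agent.W437.HP
  Pool.Agent.TH131.GHC Pool.Agent.K6.H94.DL

noncomputable section

section wl

variable {B : Type*} [Fintype B] [DecidableEq B] {κ : Type*} [Fintype κ] [DecidableEq κ]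
  {K : Type*} [Field K]

theorem wl_wl (J₁ J₂ : Matrix B B K) (c : (κ → B) → K) : wl J₂ (wl J₁ c) = wl (J₁ * J₂) c := by
  funext I
  unfold wl
  simp only [Finset.sum_mul]
  rw [Finset.sum_comm]
  refine Finset.sum_congr rfl fun I' _ => ?_
  simp only [Matrix.mul_apply]
  rw [Finset.prod_univ_sum, Fintype.piFinset_univ, Finset.mul_sum]
  refine Finset.sum_congr rfl fun I'' _ => ?_
  rw [Finset.prod_mul_distrib]
  ring

theorem wl_one (c : (κ → B) → K) : wl (1 : Matrix B B K) c = c := by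
  funext I
  unfold wl
  rw [Finset.sum_eq_single I]
  · rw [Finset.prod_eq_one fun k _ => Matrix.one_apply_eq _, mul_one]
  · intro I' _ hI'
    obtain ⟨l, hl⟩ : ∃ l, I' l ≠ I l := by
      by_contra hcon
      push Not at hcon
      exact hI' (funext hcon)
    have h : ∏ k, (1 : Matrix B B K) (I' k) (I k) = 0 :=
      Finset.prod_eq_zero (Finset.mem_univ l) (Matrix.one_apply_ne hl)
    rw [h, mul_zero]
  · intro h
    exact absurd (Finset.mem_univ _) h

/-- The action of a matrix on a tensor, in a basis of eigenvectors. -/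
theorem wl_act {X J : Matrix B B K} {d : B → K} (h : X * J = J * diagonal d)
    (c : (κ → B) → K) (φ : κ → B) : wl J (act X c) φ = (∑ k, d (φ k)) * wl J c φ := by
  change evalF (act X c) (fun k i => J i (φ k)) = _
  rw [evalF_act, Finset.sum_mul]
  refine Finset.sum_congr rfl fun k _ => ?_
  have h1 : (X *ᵥ fun i => J i (φ k)) = d (φ k) • fun i => J i (φ k) := by
    funext i
    have h2 := congrFun (congrFun h i) (φ k)
    rw [Matrix.mul_apply, Matrix.mul_diagonal] at h2
    rw [Pi.smul_apply, smul_eq_mul, mul_comm]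
    exact h2
  rw [h1, evalF_update_smul, Function.update_eq_self]
  rfl

/-- The product of the coordinates. -/
def mono (e : Matrix B B K) (ψ : κ → B) : (κ → B) → K := fun I => ∏ l, e (ψ l) (I l)

theorem wl_eq_sum (e : Matrix B B K) (X : (κ → B) → K) (I : κ → B) :
    wl e X I = ∑ ψ, X ψ * mono e ψ I := rfl

theorem act_mono {X e : Matrix B B K} {d : B → K} (h : e * X = diagonal d * e) (ψ : κ → B)
    (I : κ → B) : act X (mono e ψ) I = (∑ l, d (ψ l)) * mono e ψ I := by
  unfold act mono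
  rw [Finset.sum_mul]
  refine Finset.sum_congr rfl fun k _ => ?_
  have h1 : ∀ j, ∏ l, e (ψ l) (Function.update I k j l) =
      e (ψ k) j * ∏ l ∈ Finset.univ.erase k, e (ψ l) (I l) := by
    intro j
    rw [← Finset.mul_prod_erase _ _ (Finset.mem_univ k), Function.update_self]
    congr 1
    refine Finset.prod_congr rfl fun l hl => ?_
    rw [Function.update_of_ne (Finset.ne_of_mem_erase hl)]
  simp only [h1]
  rw [← Finset.mul_prod_erase _ _ (Finset.mem_univ k)]
  have h2 := congrFun (congrFun h (ψ k)) (I k)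
  rw [Matrix.mul_apply, Matrix.diagonal_mul] at h2
  rw [← mul_assoc, ← h2, Finset.sum_mul]
  refine Finset.sum_congr rfl fun j _ => ?_
  ring

end wl

/-- A basis of eigenvectors of the Hodge operator which is permuted by the automorphisms. -/
structure CMBasis {B : Type} [Fintype B] [DecidableEq B] (D : Matrix B B ℂ) where
  /-- the basis of the dual space -/
  e : Matrix B B ℂ
  /-- the inverse matrix -/
  u : Matrix B B ℂ
  /-- the eigenvalues -/
  ε : B → ℤ
  ue : u * e = 1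
  eu : e * u = 1
  one : ∀ s, ε s = 1 ∨ ε s = -1
  eig : e * D = diagonal (fun s => (ε s : ℂ)) * e
  perm : ∀ σ : ℂ ≃+* ℂ, ∃ π : Equiv.Perm B, ∀ s j, σ (e s j) = e (π s) j

theorem IsCM.basis {B : Type} [Fintype B] [DecidableEq B] {D : Matrix B B ℂ} (h : IsCM D) :
    Nonempty (CMBasis D) := by
  obtain ⟨e, ε, he, h0, h1, h2⟩ := h
  obtain ⟨u, hu⟩ := he.exists_left_inv
  exact ⟨⟨e, u, ε, hu, mul_eq_one_comm.1 hu, h0, h1, h2⟩⟩

section cm

variable {B : Type} [Fintype B] [DecidableEq B] {C : Type} [Fintype C] [DecidableEq C]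
  {κ : Type} [Fintype κ] [DecidableEq κ] {D : Matrix B B ℂ} {D' : Matrix C C ℂ}
  (b : CMBasis D)

/-- The permutation `π` of the basis is given by the automorphism `σ`. -/
def CMBasis.Rel (σ : ℂ ≃+* ℂ) (π : Equiv.Perm B) : Prop := ∀ s j, σ (b.e s j) = b.e (π s) j

theorem CMBasis.du : D * b.u = b.u * diagonal (fun s => (b.ε s : ℂ)) := by
  have h1 : b.u * (b.e * D) * b.u = b.u * (diagonal (fun s => (b.ε s : ℂ)) * b.e) * b.u := by
    rw [b.eig]
  have h2 : b.u * (b.e * D) * b.u = (b.u * b.e) * (D * b.u) := by noncomm_ring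
  have h3 : b.u * (diagonal (fun s => (b.ε s : ℂ)) * b.e) * b.u =
      b.u * diagonal (fun s => (b.ε s : ℂ)) * (b.e * b.u) := by noncomm_ring
  rw [h2, h3, b.ue, b.eu, one_mul, mul_one] at h1
  exact h1

theorem CMBasis.u_perm {σ : ℂ ≃+* ℂ} {π : Equiv.Perm B} (h : b.Rel σ π) (i s : B) :
    σ (b.u i s) = b.u i (π s) := by
  have h1 : b.u.map σ * b.e.map σ = 1 := by
    have h2 := congrArg (fun M : Matrix B B ℂ => M.map σ) b.ue
    have h3 := Matrix.map_mul (L := b.u) (M := b.e) (f := (σ : ℂ →+* ℂ))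
    have h4 := Matrix.map_one (n := B) (σ : ℂ →+* ℂ) (map_zero _) (map_one _)
    exact h3.symm.trans (h2.trans h4)
  have h2 : (Matrix.of fun i s => b.u i (π s)) * b.e.map σ = 1 := by
    rw [← b.ue]
    ext i j
    rw [Matrix.mul_apply, Matrix.mul_apply]
    refine Fintype.sum_equiv π _ _ fun s => ?_
    change b.u i (π s) * σ (b.e s j) = _
    rw [h s j]
  have h3 : b.e.map σ * b.u.map σ = 1 := mul_eq_one_comm.1 h1
  have h4 : (Matrix.of fun i s => b.u i (π s)) = b.u.map σ := by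
    calc (Matrix.of fun i s => b.u i (π s)) =
        (Matrix.of fun i s => b.u i (π s)) * (b.e.map σ * b.u.map σ) := by rw [h3, mul_one]
      _ = ((Matrix.of fun i s => b.u i (π s)) * b.e.map σ) * b.u.map σ := by rw [mul_assoc]
      _ = b.u.map σ := by rw [h2, one_mul]
  exact (congrFun (congrFun h4 i) s).symm

/-- The conjugates of the products of coordinates. -/
theorem CMBasis.mono_perm {σ : ℂ ≃+* ℂ} {π : Equiv.Perm B} (h : b.Rel σ π) (ψ I : κ → B) :
    σ (mono b.e ψ I) = mono b.e (fun l => π (ψ l)) I := by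
  unfold mono
  rw [map_prod]
  exact Finset.prod_congr rfl fun l _ => h _ _

/-- The coefficients of a tensor. -/
def CMBasis.co (s : (κ → B) × C → ℚ) (φ : κ → B) : C → ℂ :=
  fun c => wl b.u (fun I => ((s (I, c) : ℚ) : ℂ)) φ

theorem CMBasis.expand (s : (κ → B) × C → ℚ) (p : (κ → B) × C) :
    cstX s p = ∑ φ, mono b.e φ p.1 * b.co s φ p.2 := by
  have h1 : wl b.e (wl b.u (fun I => ((s (I, p.2) : ℚ) : ℂ))) p.1 = ((s (p.1, p.2) : ℚ) : ℂ) := by
    rw [wl_wl, b.ue, wl_one]
  rw [wl_eq_sum] at h1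
  change ((s (p.1, p.2) : ℚ) : ℂ) = _
  rw [← h1]
  exact Finset.sum_congr rfl fun φ _ => mul_comm _ _

theorem CMBasis.co_perm {σ : ℂ ≃+* ℂ} {π : Equiv.Perm B} (h : b.Rel σ π)
    (s : (κ → B) × C → ℚ) (φ : κ → B) (c : C) :
    σ (b.co s φ c) = b.co s (fun l => π (φ l)) c := by
  unfold CMBasis.co wl
  rw [map_sum]
  refine Finset.sum_congr rfl fun I _ => ?_
  rw [map_mul, map_prod, map_ratCast]
  congr 1
  exact Finset.prod_congr rfl fun l _ => b.u_perm h _ _

/-- The types of the coefficients of a Hodge tensor. -/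
theorem CMBasis.co_type {s : (κ → B) × C → ℚ} (hs : HdgT D D' s) (φ : κ → B) :
    D' *ᵥ b.co s φ = ((-∑ l, b.ε (φ l) : ℤ) : ℂ) • b.co s φ := by
  have h0 := HdgT_iff.1 hs
  funext c
  have h1 : wl b.u (fun J => act D (fun J => ((s (J, c) : ℚ) : ℂ)) J +
      ∑ c', D' c c' * ((s (J, c') : ℚ) : ℂ)) φ = 0 := by
    have h2 : (fun J => act D (fun J => ((s (J, c) : ℚ) : ℂ)) J +
      ∑ c', D' c c' * ((s (J, c') : ℚ) : ℂ)) = 0 := by
      funext J
      exact h0 J c
    rw [h2]
    simp [wl]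
  have h2 : wl b.u (fun J => act D (fun J => ((s (J, c) : ℚ) : ℂ)) J +
      ∑ c', D' c c' * ((s (J, c') : ℚ) : ℂ)) φ =
      wl b.u (act D (fun J => ((s (J, c) : ℚ) : ℂ))) φ +
        ∑ c', D' c c' * b.co s φ c' := by
    unfold CMBasis.co wl
    simp only [add_mul, Finset.sum_add_distrib, Finset.sum_mul, Finset.mul_sum]
    congr 1
    rw [Finset.sum_comm]
    refine Finset.sum_congr rfl fun c' _ => Finset.sum_congr rfl fun I _ => ?_
    ring
  rw [h2, wl_act b.du] at h1
  rw [Matrix.mulVec, dotProduct, Pi.smul_apply, smul_eq_mul]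
  have h3 : b.co s φ c = wl b.u (fun J => ((s (J, c) : ℚ) : ℂ)) φ := rfl
  rw [h3]
  push_cast
  linear_combination h1

/-- The eigenvalues are bounded. -/
theorem Bdd.le {w : ℤ} (h : Bdd D' w) {y : C → ℂ} {k : ℤ} (hy : D' *ᵥ y = (k : ℂ) • y)
    (h0 : y ≠ 0) : |k| ≤ w := by
  obtain ⟨Pb, h1, h2, h3⟩ := exists_projs h
  by_contra hk
  apply h0
  have h4 : ∀ a ∈ Finset.Icc (-w) w, Pb a *ᵥ y = 0 := by
    intro a ha
    have h5 : (k : ℂ) • (Pb a *ᵥ y) = (a : ℂ) • (Pb a *ᵥ y) := by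
      rw [← Matrix.mulVec_smul, ← hy, Matrix.mulVec_mulVec, h2, Matrix.smul_mulVec]
    have h6 : ((k : ℂ) - a) • (Pb a *ᵥ y) = 0 := by rw [sub_smul, h5, sub_self]
    refine (smul_eq_zero.1 h6).resolve_left fun h7 => hk ?_
    have h8 : k = a := by
      have := sub_eq_zero.1 h7
      exact_mod_cast this
    rw [h8]
    exact abs_le.2 (Finset.mem_Icc.1 ha)
  have h5 : y = (∑ a ∈ Finset.Icc (-w) w, Pb a) *ᵥ y := by rw [h3, Matrix.one_mulVec]
  rw [h5, Matrix.sum_mulVec]
  exact Finset.sum_eq_zero h4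

/-- The coefficients which are not zero. -/
theorem CMBasis.co_le {w : ℤ} (hw : Bdd D' w) {s : (κ → B) × C → ℚ} (hs : HdgT D D' s)
    {φ : κ → B} (h0 : b.co s φ ≠ 0) {σ : ℂ ≃+* ℂ} {π : Equiv.Perm B} (h : b.Rel σ π) :
    |∑ l, b.ε (π (φ l))| ≤ w := by
  have h1 := b.co_type hs (fun l => π (φ l))
  have h2 : b.co s (fun l => π (φ l)) ≠ 0 := by
    intro h3
    apply h0
    funext c
    have h4 : σ (b.co s φ c) = 0 := by rw [b.co_perm h, h3]; rfl
    exact (map_eq_zero σ).1 h4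
  have h3 := Bdd.le hw h1 h2
  rwa [abs_neg] at h3

end cm

end

end Pool.Agent.K6.H94.CM
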