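import Mathlib

/-!
# Small relations
-/

namespace Pool.Agent.K6.H94.CM

/-- **Bounded and balanced multisets.** There is a bound `N` such that every multiset with more than
`N` elements all whose sums are bounded by `w` contains a nonempty multiset with at most `N` elements
whose sums are zero. -/
theorem exists_balanced {B Q : Type} [Fintype B] [Finite Q] (R : Q → Prop)
    (η : Q → B → ℤ) (w : ℤ) : ∃ N : ℕ, ∀ n : B → ℕ,
    (∀ π, R π → |∑ b, (n b : ℤ) * η π b| ≤ w) → N < ∑ b, n b →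
      ∃ m : B → ℕ, m ≤ n ∧ 0 < ∑ b, m b ∧ ∑ b, m b ≤ N ∧
        ∀ π, R π → ∑ b, (m b : ℤ) * η π b = 0 := by
  classical
  have hfin : ∀ P : (B → ℕ) → Prop, {n | Minimal P n}.Finite := by
    intro P
    exact WellQuasiOrderedLE.finite_of_isAntichain (setOfPred_minimal_antichain P)
  let val : (B → ℕ) → Q → ℤ := fun n π => if R π then ∑ b, (n b : ℤ) * η π b else 0
  -- the bounded values
  have hV : {c : Q → ℤ | ∀ π, c π ∈ Set.Icc (-|w|) |w|}.Finite := by
    have h1 := Set.Finite.pi' (fun _ : Q => Set.finite_Icc (-|w|) |w|)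
    exact h1
  have hM : (⋃ c ∈ {c : Q → ℤ | ∀ π, c π ∈ Set.Icc (-|w|) |w|},
      {n | Minimal (fun n => val n = c) n}).Finite :=
    hV.biUnion fun c _ => hfin _
  have hZ := hfin (fun m => 0 < ∑ b, m b ∧ ∀ π, R π → ∑ b, (m b : ℤ) * η π b = 0)
  obtain ⟨N₁, hN₁⟩ := (hM.image (fun n => ∑ b, n b)).bddAbove
  obtain ⟨N₂, hN₂⟩ := (hZ.image (fun n => ∑ b, n b)).bddAbove
  refine ⟨max N₁ N₂, fun n hn hbig => ?_⟩
  -- a minimal multiset with the same values
  obtain ⟨n₀, hle, hmin⟩ := exists_minimal_le_of_wellFoundedLT (fun n' => val n' = val n) n rfl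
  have hsum : ∑ b, n₀ b ≤ N₁ := by
    refine hN₁ ⟨n₀, ?_, rfl⟩
    refine Set.mem_biUnion (x := val n) ?_ hmin
    intro π
    by_cases hR : R π
    · have h1 : val n π = ∑ b, (n b : ℤ) * η π b := if_pos hR
      rw [h1]
      have h2 := hn π hR
      have h3 := abs_le.1 (h2.trans (le_abs_self w))
      exact ⟨h3.1, h3.2⟩
    · have h1 : val n π = 0 := if_neg hR
      rw [h1]
      exact ⟨by simp, by simp⟩
  -- the difference
  have hd : ∀ b, ((n b - n₀ b : ℕ) : ℤ) = (n b : ℤ) - n₀ b := fun b => by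
    have := hle b
    push_cast [Nat.cast_sub this]
    ring
  have hdiff : 0 < ∑ b, (n b - n₀ b) := by
    have h1 : ∑ b, n b = ∑ b, (n b - n₀ b) + ∑ b, n₀ b := by
      rw [← Finset.sum_add_distrib]
      refine Finset.sum_congr rfl fun b _ => ?_
      have h9 : n₀ b ≤ n b := hle b
      omega
    have h2 := le_max_left N₁ N₂
    omega
  have hz : ∀ π, R π → ∑ b, ((n b - n₀ b : ℕ) : ℤ) * η π b = 0 := by
    intro π hR
    have h1 := congrFun hmin.1 π
    have h2 : val n₀ π = ∑ b, (n₀ b : ℤ) * η π b := if_pos hR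
    have h3 : val n π = ∑ b, (n b : ℤ) * η π b := if_pos hR
    rw [h2, h3] at h1
    simp only [hd, sub_mul, Finset.sum_sub_distrib]
    rw [h1, sub_self]
  obtain ⟨m, hm, hmm⟩ := exists_minimal_le_of_wellFoundedLT
    (fun m => 0 < ∑ b, m b ∧ ∀ π, R π → ∑ b, (m b : ℤ) * η π b = 0) (fun b => n b - n₀ b)
    ⟨hdiff, hz⟩
  refine ⟨m, fun b => (hm b).trans (Nat.sub_le _ _), hmm.1.1, ?_, hmm.1.2⟩
  exact (hN₂ ⟨m, hmm, rfl⟩).trans (le_max_right _ _)

/-- A part of a family with given multiplicities. -/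
theorem exists_part {B κ : Type} [Fintype B] [DecidableEq B] [Fintype κ] [DecidableEq κ]
    (φ : κ → B) (m : B → ℕ) (hm : ∀ b, m b ≤ (Finset.univ.filter fun l => φ l = b).card) :
    ∃ T : Finset κ, T.card = ∑ b, m b ∧ ∀ g : B → ℤ, ∑ l ∈ T, g (φ l) = ∑ b, (m b : ℤ) * g b := by
  choose S hS1 hS2 using fun b => Finset.exists_subset_card_eq (hm b)
  have hd : Set.PairwiseDisjoint (↑(Finset.univ : Finset B)) S := by
    intro b _ b' _ hb
    rw [Function.onFun, Finset.disjoint_left]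
    intro l h1 h2
    apply hb
    have h3 := (Finset.mem_filter.1 (hS1 b h1)).2
    have h4 := (Finset.mem_filter.1 (hS1 b' h2)).2
    rw [← h3, ← h4]
  refine ⟨Finset.univ.biUnion S, ?_, fun g => ?_⟩
  · rw [Finset.card_biUnion fun x _ y _ h => hd (Finset.mem_coe.2 (Finset.mem_univ x))
      (Finset.mem_coe.2 (Finset.mem_univ y)) h]
    exact Finset.sum_congr rfl fun b _ => hS2 b
  · rw [Finset.sum_biUnion hd]
    refine Finset.sum_congr rfl fun b _ => ?_
    rw [← hS2 b, Finset.sum_congr rfl (g := fun _ => g b), Finset.sum_const, nsmul_eq_mul]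
    intro l hl
    rw [(Finset.mem_filter.1 (hS1 b hl)).2]

end Pool.Agent.K6.H94.CM
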