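import Mathlib
import Pool.Agent.K6.H94.CM.Basis

/-!
# Hodge tensors with values in a Hodge structure, for complex multiplication
-/

set_option linter.unusedSectionVars false

namespace Pool.Agent.K6.H94.CM

open Matrix Equiv Pool.Agent.H204R3.SP Pool.Agent.W437.HC Pool.Agent.W437.HD Pool.Agent.W437.HP
  Pool.Agent.TH131.GHC Pool.Agent.K6.H94.DL

noncomputable section

/-- Galois descent: a complex vector is a combination of rational vectors in each subspace which
contains it and is stable under the automorphisms of the complex numbers. -/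
theorem mem_span_rat {X : Type*} [Fintype X] (W : Submodule ℂ (X → ℂ))
    (hW : ∀ σ : ℂ ≃+* ℂ, ∀ z ∈ W, (fun x => σ (z x)) ∈ W) {z : X → ℂ} (hz : z ∈ W) :
    z ∈ Submodule.span ℂ {y | ∃ t : X → ℚ, y = cstX t ∧ y ∈ W} := by
  have h1 := Pool.Agent.TH119.MX.defOver_of_aut (F := (⊥ : Subfield ℂ)) W
    (fun σ _ v hv => hW σ v hv) hz
  refine Submodule.span_mono ?_ h1
  rintro y ⟨hy, hr⟩
  have h2 : ∀ x, ∃ q : ℚ, (q : ℂ) = y x := by
    intro x
    have h3 := hr x
    rw [Subfield.bot_eq_of_charZero] at h3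
    obtain ⟨q, hq⟩ := h3
    exact ⟨q, hq⟩
  choose t ht using h2
  have h3 : y = cstX t := by
    funext x
    exact (ht x).symm
  exact ⟨t, h3, hy⟩

/-- A rational vector in the complexification of a rational subspace. -/
theorem mem_of_cxX {X : Type*} [Fintype X] [DecidableEq X] {G : Submodule ℚ (X → ℚ)} {s : X → ℚ}
    (h : cstX s ∈ cxX G) : s ∈ G := by
  obtain ⟨lam, hlam⟩ : ∃ lam : ℂ →ₗ[ℚ] ℚ, lam 1 = 1 := by
    obtain ⟨g, hg⟩ := LinearMap.exists_leftInverse_of_injective (Algebra.linearMap ℚ ℂ)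
      (LinearMap.ker_eq_bot.2 (algebraMap ℚ ℂ).injective)
    refine ⟨g, ?_⟩
    have h1 := LinearMap.congr_fun hg 1
    simpa using h1
  have h1 := lam_cxX h lam
  have h2 : (fun x => lam (cstX s x)) = s := by
    funext x
    have h3 : cstX s x = s x • (1 : ℂ) := by
      rw [Rat.smul_def, mul_one]
      rfl
    rw [h3, map_smul, hlam, smul_eq_mul, mul_one]
  rwa [h2] at h1

variable {B : Type} [Fintype B] [DecidableEq B] {C : Type} [Fintype C] [DecidableEq C]
  {κ : Type} [Fintype κ] [DecidableEq κ] {D : Matrix B B ℂ} {D' : Matrix C C ℂ}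

/-- The product of a form in the variables in `T` and a form in the other variables. -/
def mulT {K : Type} [Field K] (T : Finset κ) (f : ({l // l ∈ T} → B) → K)
    (t : ({l // l ∉ T} → B) × C → K) : (κ → B) × C → K :=
  fun p => f (fun l => p.1 l.1) * t (fun l => p.1 l.1, p.2)

/-- The space of tensors all whose conjugates are killed by the Hodge operator. -/
def Ug (D : Matrix B B ℂ) (κ : Type) [Fintype κ] [DecidableEq κ] : Submodule ℂ ((κ → B) → ℂ) where
  carrier := {z | ∀ σ : ℂ ≃+* ℂ, act D (fun I => σ (z I)) = 0}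
  zero_mem' := by
    intro σ
    have h : (fun I => σ ((0 : (κ → B) → ℂ) I)) = 0 := by
      funext I
      exact map_zero σ
    rw [h, act_zero_right]
  add_mem' := by
    intro x y hx hy σ
    have h : (fun I => σ ((x + y) I)) = (fun I => σ (x I)) + fun I => σ (y I) := by
      funext I
      exact map_add σ _ _
    rw [h, act_add_right, hx σ, hy σ, add_zero]
  smul_mem' := by
    intro r x hx σ
    have h : (fun I => σ ((r • x) I)) = σ r • fun I => σ (x I) := by
      funext I
      exact map_mul σ _ _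
    rw [h, act_smul_right, hx σ, smul_zero]

/-- The space of tensors with values all whose conjugates are killed by the Hodge operator. -/
def Vg (D : Matrix B B ℂ) (D' : Matrix C C ℂ) (κ : Type) [Fintype κ] [DecidableEq κ] :
    Submodule ℂ ((κ → B) × C → ℂ) where
  carrier := {z | ∀ σ : ℂ ≃+* ℂ, opD κ C D (fun p => σ (z p)) + opW κ B D' (fun p => σ (z p)) = 0}
  zero_mem' := by
    intro σ
    have h : (fun p => σ ((0 : (κ → B) × C → ℂ) p)) = 0 := by
      funext I
      exact map_zero σ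
    rw [h, map_zero, map_zero, add_zero]
  add_mem' := by
    intro x y hx hy σ
    have h : (fun I => σ ((x + y) I)) = (fun I => σ (x I)) + fun I => σ (y I) := by
      funext I
      exact map_add σ _ _
    have hx' : opD κ C D (fun p => σ (x p)) + opW κ B D' (fun p => σ (x p)) = 0 := hx σ
    have hy' : opD κ C D (fun p => σ (y p)) + opW κ B D' (fun p => σ (y p)) = 0 := hy σ
    rw [h, map_add, map_add, add_add_add_comm, hx', hy', add_zero]
  smul_mem' := by
    intro r x hx σ
    have h : (fun I => σ ((r • x) I)) = σ r • fun I => σ (x I) := by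
      funext I
      exact map_mul σ _ _
    have hx' : opD κ C D (fun p => σ (x p)) + opW κ B D' (fun p => σ (x p)) = 0 := hx σ
    rw [h, map_smul, map_smul, ← smul_add, hx', smul_zero]

theorem Ug_stab (σ : ℂ ≃+* ℂ) {z : (κ → B) → ℂ} (hz : z ∈ Ug D κ) :
    (fun I => σ (z I)) ∈ Ug D κ := fun τ => hz (σ.trans τ)

theorem Vg_stab (σ : ℂ ≃+* ℂ) {z : (κ → B) × C → ℂ} (hz : z ∈ Vg D D' κ) :
    (fun I => σ (z I)) ∈ Vg D D' κ := fun τ => hz (σ.trans τ)

theorem isH_of_Ug {f : (κ → B) → ℚ} (h : cstX f ∈ Ug D κ) : IsH D f := by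
  have h1 := h (RingEquiv.refl ℂ)
  exact h1

theorem HdgT_of_Vg {t : (κ → B) × C → ℚ} (h : cstX t ∈ Vg D D' κ) : HdgT D D' t := by
  have h1 := h (RingEquiv.refl ℂ)
  exact h1

variable (b : CMBasis D)

/-- The family `φ` of indices is balanced on `T`. -/
def CMBasis.Bal (φ : κ → B) (T : Finset κ) : Prop :=
  ∀ (σ : ℂ ≃+* ℂ) (π : Equiv.Perm B), b.Rel σ π → ∑ l ∈ T, b.ε (π (φ l)) = 0

/-- The sums of the signs of the family and of its conjugates are at most `w`. -/
def CMBasis.Small (w : ℤ) (φ : κ → B) : Prop :=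
  ∀ (σ : ℂ ≃+* ℂ) (π : Equiv.Perm B), b.Rel σ π → |∑ l, b.ε (π (φ l))| ≤ w

theorem mono_mem {φ : κ → B} {T : Finset κ} (hT : b.Bal φ T) :
    mono b.e (fun l : {l // l ∈ T} => φ l.1) ∈ Ug D {l // l ∈ T} := by
  intro σ
  obtain ⟨π, hπ⟩ := b.perm σ
  have h1 : (fun I : {l // l ∈ T} → B => σ (mono b.e (fun l => φ l.1) I)) =
      mono b.e (fun l => π (φ l.1)) := by
    funext I
    exact b.mono_perm hπ _ I
  rw [h1]
  funext I
  rw [act_mono b.eig]
  have h2 : ∑ l : {l // l ∈ T}, ((b.ε (π (φ l.1)) : ℤ) : ℂ) = 0 := by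
    have h3 := hT σ π hπ
    rw [Finset.sum_coe_sort T (fun l => ((b.ε (π (φ l)) : ℤ) : ℂ)), ← Int.cast_sum, h3,
      Int.cast_zero]
  rw [h2, zero_mul]
  rfl

theorem rest_mem {s : (κ → B) × C → ℚ} (hs : HdgT D D' s) {φ : κ → B} {T : Finset κ}
    (hT : b.Bal φ T) : (fun q : ({l // l ∉ T} → B) × C =>
      mono b.e (fun l : {l // l ∉ T} => φ l.1) q.1 * b.co s φ q.2) ∈ Vg D D' {l // l ∉ T} := by
  intro σ
  obtain ⟨π, hπ⟩ := b.perm σ
  have h1 : (fun q : ({l // l ∉ T} → B) × C => σ (mono b.e (fun l : {l // l ∉ T} => φ l.1) q.1 *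
      b.co s φ q.2)) = fun q => mono b.e (fun l => π (φ l.1)) q.1 *
        b.co s (fun l => π (φ l)) q.2 := by
    funext q
    rw [map_mul, b.mono_perm hπ, b.co_perm hπ]
  change opD _ C D (fun q : ({l // l ∉ T} → B) × C => σ (mono b.e
    (fun l : {l // l ∉ T} => φ l.1) q.1 * b.co s φ q.2)) + opW _ B D'
      (fun q : ({l // l ∉ T} → B) × C => σ (mono b.e
        (fun l : {l // l ∉ T} => φ l.1) q.1 * b.co s φ q.2)) = 0
  rw [h1]
  obtain ⟨x, hx⟩ : ∃ x : C → ℂ, x = b.co s (fun l => π (φ l)) := ⟨_, rfl⟩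
  have h2 := b.co_type hs (fun l => π (φ l))
  rw [← hx] at h2 ⊢
  funext q
  have h3 : opD {l // l ∉ T} C D (fun q : ({l // l ∉ T} → B) × C =>
      mono b.e (fun l => π (φ l.1)) q.1 * x q.2) q =
      (∑ l : {l // l ∉ T}, ((b.ε (π (φ l.1)) : ℤ) : ℂ)) *
        (mono b.e (fun l => π (φ l.1)) q.1 * x q.2) := by
    have h4 : sl q.2 (opD {l // l ∉ T} C D (fun q : ({l // l ∉ T} → B) × C =>
      mono b.e (fun l => π (φ l.1)) q.1 * x q.2)) q.1 = _ :=
        congrFun (sl_opD D q.2 (fun q : ({l // l ∉ T} → B) × C =>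
          mono b.e (fun l => π (φ l.1)) q.1 * x q.2)) q.1
    have h5 : sl q.2 (fun q : ({l // l ∉ T} → B) × C =>
        mono b.e (fun l => π (φ l.1)) q.1 * x q.2) =
        x q.2 • mono b.e (fun l : {l // l ∉ T} => π (φ l.1)) := by
      funext I
      rw [Pi.smul_apply, smul_eq_mul, mul_comm]
      rfl
    rw [h5, act_smul_right, Pi.smul_apply, act_mono b.eig, smul_eq_mul] at h4
    have h6 : sl q.2 (opD {l // l ∉ T} C D (fun q : ({l // l ∉ T} → B) × C =>
      mono b.e (fun l => π (φ l.1)) q.1 * x q.2)) q.1 =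
        opD {l // l ∉ T} C D (fun q : ({l // l ∉ T} → B) × C =>
          mono b.e (fun l => π (φ l.1)) q.1 * x q.2) q := rfl
    rw [← h6, h4]
    ring
  have h4 : opW {l // l ∉ T} B D' (fun q : ({l // l ∉ T} → B) × C =>
      mono b.e (fun l => π (φ l.1)) q.1 * x q.2) q =
      mono b.e (fun l : {l // l ∉ T} => π (φ l.1)) q.1 * (D' *ᵥ x) q.2 := by
    rw [opW_apply, Matrix.mulVec, dotProduct, Finset.mul_sum]
    exact Finset.sum_congr rfl fun c _ => by ring
  rw [Pi.add_apply, h3, h4, h2, Pi.smul_apply, smul_eq_mul]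
  have h5 : ∑ l, b.ε (π (φ l)) = ∑ l : {l // l ∉ T}, b.ε (π (φ l.1)) := by
    have h6 := hT σ π hπ
    have h7 := Finset.sum_add_sum_compl T (fun l => b.ε (π (φ l)))
    have h8 : ∑ l : {l // l ∉ T}, b.ε (π (φ l.1)) = ∑ l ∈ Tᶜ, b.ε (π (φ l)) := by
      rw [← Finset.sum_subtype Tᶜ (fun l => Finset.mem_compl) (fun l => b.ε (π (φ l)))]
    rw [h8]
    linarith
  rw [h5]
  push_cast
  rw [Pi.zero_apply]
  ring

/-- The products of the elements of two spaces spanned by rational vectors. -/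
theorem mulT_mem {T : Finset κ} {G : Submodule ℚ ((κ → B) × C → ℚ)}
    {S₁ : Set (({l // l ∈ T} → B) → ℂ)} {S₂ : Set (({l // l ∉ T} → B) × C → ℂ)}
    (h : ∀ f ∈ S₁, ∀ t ∈ S₂, mulT T f t ∈ cxX G) {f : ({l // l ∈ T} → B) → ℂ}
    (hf : f ∈ Submodule.span ℂ S₁) {t : ({l // l ∉ T} → B) × C → ℂ}
    (ht : t ∈ Submodule.span ℂ S₂) : mulT T f t ∈ cxX G := by
  induction hf using Submodule.span_induction with
  | mem f hf =>
    induction ht using Submodule.span_induction with
    | mem t ht => exact h f hf t ht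
    | zero =>
      have h1 : mulT T f (0 : ({l // l ∉ T} → B) × C → ℂ) = 0 := by
        funext p
        exact mul_zero _
      rw [h1]
      exact Submodule.zero_mem _
    | add x y _ _ hx hy =>
      have h1 : mulT T f (x + y) = mulT T f x + mulT T f y := by
        funext p
        exact mul_add _ _ _
      rw [h1]
      exact Submodule.add_mem _ hx hy
    | smul r x _ hx =>
      have h1 : mulT T f (r • x) = r • mulT T f x := by
        funext p
        exact mul_left_comm _ _ _
      rw [h1]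
      exact Submodule.smul_mem _ _ hx
  | zero =>
    have h1 : mulT T (0 : ({l // l ∈ T} → B) → ℂ) t = 0 := by
      funext p
      exact zero_mul _
    rw [h1]
    exact Submodule.zero_mem _
  | add x y _ _ hx hy =>
    have h1 : mulT T (x + y) t = mulT T x t + mulT T y t := by
      funext p
      exact add_mul _ _ _
    rw [h1]
    exact Submodule.add_mem _ hx hy
  | smul r x _ hx =>
    have h1 : mulT T (r • x) t = r • mulT T x t := by
      funext p
      exact mul_assoc _ _ _
    rw [h1]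
    exact Submodule.smul_mem _ _ hx

/-- Hodge tensors as combinations of products of Hodge tensors. -/
theorem mem_of_bal {s : (κ → B) × C → ℚ} (hs : HdgT D D' s) (G : Submodule ℚ ((κ → B) × C → ℚ))
    (hT : ∀ φ, b.co s φ ≠ 0 → ∃ T : Finset κ, b.Bal φ T ∧
      ∀ (f : ({l // l ∈ T} → B) → ℚ) (t : ({l // l ∉ T} → B) × C → ℚ), IsH D f → HdgT D D' t →
        mulT T f t ∈ G) : s ∈ G := by
  refine mem_of_cxX ?_
  have h1 : cstX s = ∑ φ, fun p : (κ → B) × C => mono b.e φ p.1 * b.co s φ p.2 := by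
    funext p
    rw [b.expand, Finset.sum_apply]
  rw [h1]
  refine Submodule.sum_mem _ fun φ _ => ?_
  by_cases h0 : b.co s φ = 0
  · have h2 : (fun p : (κ → B) × C => mono b.e φ p.1 * b.co s φ p.2) = 0 := by
      funext p
      rw [h0]
      exact mul_zero _
    rw [h2]
    exact Submodule.zero_mem _
  · obtain ⟨T, hb, hG⟩ := hT φ h0
    have h2 : (fun p : (κ → B) × C => mono b.e φ p.1 * b.co s φ p.2) =
        mulT T (mono b.e fun l : {l // l ∈ T} => φ l.1)
          (fun q => mono b.e (fun l : {l // l ∉ T} => φ l.1) q.1 * b.co s φ q.2) := by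
      funext p
      unfold mulT
      rw [← mul_assoc]
      congr 1
      unfold mono
      have h3 := Finset.prod_mul_prod_compl T (fun l => b.e (φ l) (p.1 l))
      rw [← h3]
      congr 1
      · rw [Finset.prod_coe_sort T (fun l => b.e (φ l) (p.1 l))]
      · rw [← Finset.prod_subtype Tᶜ (fun l => Finset.mem_compl) (fun l => b.e (φ l) (p.1 l))]
    rw [h2]
    refine mulT_mem ?_ (mem_span_rat _ (fun σ z hz => Ug_stab σ hz) (mono_mem b hb))
      (mem_span_rat _ (fun σ z hz => Vg_stab σ hz) (rest_mem b hs hb))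
    rintro _ ⟨f, rfl, hf⟩ _ ⟨t, rfl, ht⟩
    have h3 : mulT T (cstX f) (cstX t) = cstX (mulT T f t) := by
      funext p
      unfold mulT cstX
      push_cast
      rfl
    rw [h3]
    exact cstX_mem (hG f t (isH_of_Ug hf) (HdgT_of_Vg ht))

end

end Pool.Agent.K6.H94.CM
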