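import Mathlib
import Pool.Agent.K6.H94.CM.Gen
import Pool.Agent.K6.H94.CM.Comb

/-!
# Families of spaces of tensors which contain all Hodge tensors
-/

set_option linter.unusedSectionVars false

namespace Pool.Agent.K6.H94.CM

open Matrix Equiv Pool.Agent.H204R3.SP Pool.Agent.W437.HC Pool.Agent.W437.HD Pool.Agent.W437.HP
  Pool.Agent.TH131.GHC Pool.Agent.K6.H94.DL

noncomputable section

variable {B : Type} [Fintype B] [DecidableEq B] {C : Type} [Fintype C] [DecidableEq C]
  {D : Matrix B B ℂ} {D' : Matrix C C ℂ} (b : CMBasis D)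

/-- Every family of indices with more than `N` elements and with sums at most `w` has a balanced part
with at most `N` elements. -/
def CMBasis.HasParts (w : ℤ) (N : ℕ) : Prop :=
  ∀ (κ : Type) [Fintype κ] [DecidableEq κ] (φ : κ → B), b.Small w φ → N < Fintype.card κ →
    ∃ T : Finset κ, T.Nonempty ∧ T.card ≤ N ∧ b.Bal φ T

theorem CMBasis.exists_hasParts (w : ℤ) : ∃ N : ℕ, b.HasParts w N := by
  obtain ⟨N, hN⟩ := exists_balanced (B := B) (fun π : Equiv.Perm B => ∃ σ, b.Rel σ π)
    (fun π s => b.ε (π s)) w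
  refine ⟨N, fun κ _ _ φ hφ hκ => ?_⟩
  have hcount : ∀ g : B → ℤ, ∑ l, g (φ l) =
      ∑ s, ((Finset.univ.filter fun l => φ l = s).card : ℤ) * g s := by
    intro g
    rw [← Finset.sum_fiberwise (Finset.univ : Finset κ) φ]
    refine Finset.sum_congr rfl fun s _ => ?_
    rw [Finset.sum_congr rfl (g := fun _ => g s), Finset.sum_const, nsmul_eq_mul]
    intro l hl
    rw [(Finset.mem_filter.1 hl).2]
  obtain ⟨m, h1, h2, h3, h4⟩ := hN (fun s => (Finset.univ.filter fun l => φ l = s).card) (by
    rintro π ⟨σ, hσ⟩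
    have h5 := hφ σ π hσ
    rw [hcount fun s => b.ε (π s)] at h5
    exact h5) (by
    have h5 := Finset.card_eq_sum_card_fiberwise (f := φ) (s := (Finset.univ : Finset κ))
      (t := Finset.univ) (fun _ _ => Finset.mem_coe.2 (Finset.mem_univ _))
    rw [← h5, Finset.card_univ]
    exact hκ)
  obtain ⟨T, hT1, hT2⟩ := exists_part φ m h1
  refine ⟨T, Finset.card_pos.1 (by rw [hT1]; exact h2), hT1 ▸ h3, fun σ π hσ => ?_⟩
  rw [hT2 fun s => b.ε (π s)]
  exact h4 π ⟨σ, hσ⟩

/-- Balanced parts have an even number of elements. -/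
theorem CMBasis.even {κ : Type} [Fintype κ] [DecidableEq κ] {φ : κ → B} {T : Finset κ}
    (h : b.Bal φ T) : Even T.card := by
  obtain ⟨π, hπ⟩ := b.perm (RingEquiv.refl ℂ)
  have h1 := h _ π hπ
  have h2 : ∀ S : Finset κ, Even (S.card : ℤ) ↔ Even (∑ l ∈ S, b.ε (π (φ l))) := by
    intro S
    induction S using Finset.induction_on with
    | empty => simp
    | insert a S ha ih =>
      rw [Finset.sum_insert ha, Finset.card_insert_of_notMem ha]
      push_cast
      rw [Int.even_add, ih, Int.even_add]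
      have h3 : ¬ Even (b.ε (π (φ a))) := by
        rcases b.one (π (φ a)) with h | h <;> rw [h] <;> decide
      have h4 : ¬ Even (1 : ℤ) := by decide
      tauto
  have h3 := (h2 T).2 (by rw [h1]; exact Even.zero)
  exact_mod_cast h3

/-- **Hodge tensors with values in a Hodge structure of level at most `w`, for complex
multiplication**: they belong to every family of spaces which contains those with at most `N`
variables and is stable under the multiplication with Hodge tensors with at most `N` variables. -/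
theorem cm_family {w : ℤ} (hw : Bdd D' w) {N : ℕ} (hN : b.HasParts w N)
    (G : ∀ (κ : Type) [Fintype κ] [DecidableEq κ], Submodule ℚ ((κ → B) × C → ℚ))
    (hbase : ∀ (κ : Type) [Fintype κ] [DecidableEq κ], Fintype.card κ ≤ N →
      ∀ t : (κ → B) × C → ℚ, HdgT D D' t → t ∈ G κ)
    (hmul : ∀ (κ : Type) [Fintype κ] [DecidableEq κ] (T : Finset κ)
      (f : ({l // l ∈ T} → B) → ℚ) (t : ({l // l ∉ T} → B) × C → ℚ), T.card ≤ N → Even T.card →
        IsH D f → t ∈ G {l // l ∉ T} → mulT T f t ∈ G κ) (n : ℕ) :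
    ∀ (κ : Type) [Fintype κ] [DecidableEq κ], Fintype.card κ = n →
      ∀ t : (κ → B) × C → ℚ, HdgT D D' t → t ∈ G κ := by
  induction n using Nat.strong_induction_on with
  | _ n ih =>
    intro κ _ _ hn s hs
    by_cases hle : Fintype.card κ ≤ N
    · exact hbase κ hle s hs
    · refine mem_of_bal b hs (G κ) fun φ hφ => ?_
      obtain ⟨T, hT1, hT2, hT3⟩ := hN κ φ (fun σ π hσ => b.co_le hw hs hφ hσ) (not_le.1 hle)
      refine ⟨T, hT3, fun f t hf ht => hmul κ T f t hT2 (b.even hT3) hf ?_⟩
      refine ih (Fintype.card {l // l ∉ T}) ?_ {l // l ∉ T} rfl t ht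
      rw [← hn]
      obtain ⟨x, hx⟩ := hT1
      exact Fintype.card_subtype_lt (x := x) (fun h => h hx)

end

end Pool.Agent.K6.H94.CM
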