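import Mathlib
import Pool.Agent.K6.H94.CM.Main

/-!
# Products of tensors
-/

set_option linter.unusedSectionVars false

namespace Pool.Agent.K6.H94.CM

open Matrix Equiv Pool.Agent.H204R3.SP Pool.Agent.W437.HC Pool.Agent.W437.HD Pool.Agent.W437.HP
  Pool.Agent.TH131.GHC Pool.Agent.K6.H94.DL

noncomputable section

variable {B : Type} [Fintype B] [DecidableEq B] {C : Type} [Fintype C] [DecidableEq C]
  {κ : Type} [Fintype κ] [DecidableEq κ] {K : Type} [Field K]

theorem res_update_mem {T : Finset κ} (I : κ → B) (k : {l // l ∈ T}) (j : B) :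
    (fun l : {l // l ∈ T} => Function.update I k.1 j l.1) =
      Function.update (fun l : {l // l ∈ T} => I l.1) k j := by
  funext l
  by_cases h : l = k
  · subst h
    rw [Function.update_self, Function.update_self]
  · rw [Function.update_of_ne h, Function.update_of_ne (fun h' => h (Subtype.ext h'))]

theorem res_update_mem' {T : Finset κ} (I : κ → B) (k : {l // l ∈ T}) (j : B) :
    (fun l : {l // l ∉ T} => Function.update I k.1 j l.1) = fun l : {l // l ∉ T} => I l.1 := by
  funext l
  rw [Function.update_of_ne]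
  intro h
  exact l.2 (h ▸ k.2)

theorem res_update_not {T : Finset κ} (I : κ → B) (k : {l // l ∉ T}) (j : B) :
    (fun l : {l // l ∉ T} => Function.update I k.1 j l.1) =
      Function.update (fun l : {l // l ∉ T} => I l.1) k j := by
  funext l
  by_cases h : l = k
  · subst h
    rw [Function.update_self, Function.update_self]
  · rw [Function.update_of_ne h, Function.update_of_ne (fun h' => h (Subtype.ext h'))]

theorem res_update_not' {T : Finset κ} (I : κ → B) (k : {l // l ∉ T}) (j : B) :
    (fun l : {l // l ∈ T} => Function.update I k.1 j l.1) = fun l : {l // l ∈ T} => I l.1 := by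
  funext l
  rw [Function.update_of_ne]
  intro h
  exact k.2 (h ▸ l.2)

theorem sum_splitT (T : Finset κ) (g : κ → K) :
    ∑ k, g k = ∑ k : {l // l ∈ T}, g k.1 + ∑ k : {l // l ∉ T}, g k.1 := by
  rw [← Finset.sum_add_sum_compl T g, Finset.sum_coe_sort T g,
    ← Finset.sum_subtype Tᶜ (fun l => Finset.mem_compl) g]

theorem prod_splitT (T : Finset κ) (g : κ → K) :
    ∏ k, g k = (∏ k : {l // l ∈ T}, g k.1) * ∏ k : {l // l ∉ T}, g k.1 := by
  rw [← Finset.prod_mul_prod_compl T g, Finset.prod_coe_sort T g,
    ← Finset.prod_subtype Tᶜ (fun l => Finset.mem_compl) g]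

/-- The action of a matrix on a product. -/
theorem act_mulT (X : Matrix B B K) (T : Finset κ) (f : ({l // l ∈ T} → B) → K)
    (t : ({l // l ∉ T} → B) → K) (I : κ → B) :
    act X (fun I : κ → B => f (fun l => I l.1) * t (fun l => I l.1)) I =
      act X f (fun l => I l.1) * t (fun l => I l.1) +
        f (fun l => I l.1) * act X t (fun l => I l.1) := by
  unfold act
  rw [sum_splitT T, Finset.sum_mul, Finset.mul_sum]
  congr 1
  · refine Finset.sum_congr rfl fun k _ => ?_
    rw [Finset.sum_mul]
    refine Finset.sum_congr rfl fun j _ => ?_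
    change X j (I k.1) * (f (fun l => Function.update I k.1 j l.1) *
      t (fun l => Function.update I k.1 j l.1)) = _
    rw [res_update_mem, res_update_mem']
    ring
  · refine Finset.sum_congr rfl fun k _ => ?_
    rw [Finset.mul_sum]
    refine Finset.sum_congr rfl fun j _ => ?_
    change X j (I k.1) * (f (fun l => Function.update I k.1 j l.1) *
      t (fun l => Function.update I k.1 j l.1)) = _
    rw [res_update_not, res_update_not']
    ring

theorem HdgT_mulT {D : Matrix B B ℂ} {D' : Matrix C C ℂ} {T : Finset κ}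
    {f : ({l // l ∈ T} → B) → ℚ} (hf : IsH D f) {t : ({l // l ∉ T} → B) × C → ℚ}
    (ht : HdgT D D' t) : HdgT D D' (mulT T f t) := by
  rw [HdgT_iff] at ht ⊢
  intro J c
  have h1 := ht (fun l => J l.1) c
  have h2 := act_mulT D T (cst ℂ f) (fun I => ((t (I, c) : ℚ) : ℂ)) J
  have h3 : (fun J : κ → B => ((mulT T f t (J, c) : ℚ) : ℂ)) =
      fun I : κ → B => cst ℂ f (fun l => I l.1) * ((t ((fun l => I l.1), c) : ℚ) : ℂ) := by
    funext J
    unfold mulT
    push_cast
    rfl
  have h4 : act D (cst ℂ f) = 0 := hf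
  rw [h3, h2, h4]
  have h5 : ∑ c', D' c c' * ((mulT T f t (J, c') : ℚ) : ℂ) =
      cst ℂ f (fun l => J l.1) * ∑ c', D' c c' * ((t ((fun l => J l.1), c') : ℚ) : ℂ) := by
    rw [Finset.mul_sum]
    refine Finset.sum_congr rfl fun c' _ => ?_
    unfold mulT
    push_cast
    change _ * (((f fun l => J l.1 : ℚ) : ℂ) * _) = ((f fun l => J l.1 : ℚ) : ℂ) * _
    ring
  rw [h5, Pi.zero_apply, zero_mul, zero_add, ← mul_add]
  have h6 : act D (fun I => ((t (I, c) : ℚ) : ℂ)) (fun l => J l.1) +
      ∑ c', D' c c' * ((t ((fun l => J l.1), c') : ℚ) : ℂ) = 0 := h1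
  rw [h6, mul_zero]

/-- The substitution of a matrix in a product. -/
theorem wl_mulT (P : Matrix B B K) (T : Finset κ) (f : ({l // l ∈ T} → B) → K)
    (t : ({l // l ∉ T} → B) → K) (X : κ → B) :
    wl P (fun I : κ → B => f (fun l => I l.1) * t (fun l => I l.1)) X =
      wl P f (fun l => X l.1) * wl P t (fun l => X l.1) := by
  unfold wl
  rw [Finset.sum_mul_sum, ← Finset.sum_product', Finset.univ_product_univ]
  refine Fintype.sum_equiv (Equiv.piEquivPiSubtypeProd (fun l => l ∈ T) (fun _ => B)) _ _
    fun I => ?_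
  rw [prod_splitT T]
  change _ = (f (fun l => I l.1) * ∏ l : {l // l ∈ T}, P (I l.1) (X l.1)) *
    (t (fun l => I l.1) * ∏ l : {l // l ∉ T}, P (I l.1) (X l.1))
  ring

end

end Pool.Agent.K6.H94.CM
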