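import Mathlib
import Pool.Agent.K6.H94.CM.Prod

/-!
# Absolutely Hodge classes on `A ^ m × Z`, for complex multiplication
-/

set_option linter.unusedSectionVars false

namespace Pool.Agent.K6.H94.CM

open Matrix Equiv Pool.Agent.H204R3.SP Pool.Agent.W437.HC Pool.Agent.W437.HD Pool.Agent.W437.HP
  Pool.Agent.TH131.GHC Pool.Agent.K6.H94.DL

noncomputable section

section hdg

variable {B : Type} [Fintype B] [DecidableEq B] {D D₂ : Matrix B B ℂ}
  {τ : Type} [Fintype τ] [DecidableEq τ] {τ' : Type} [Fintype τ'] [DecidableEq τ']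

theorem isH_reindex (e : τ' ≃ τ) {f : (τ → B) → ℚ} (hf : IsH D f) :
    IsH D (fun I : τ' → B => f (fun l => I (e.symm l))) := by
  have h1 : IsH D (fun I : τ' → B => f (fun l => I (e.symm l))) ↔
      act D (fun I : τ' → B => cst ℂ f (fun l => I (e.symm l))) = 0 := Iff.rfl
  rw [h1]
  have h2 : act D (fun I : τ' → B => cst ℂ f (fun l => I (e.symm l))) =
      fun I => act D (cst ℂ f) (fun l => I (e.symm l)) := act_reindex e D (cst ℂ f)
  rw [h2, show act D (cst ℂ f) = 0 from hf]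
  rfl

/-- The Hodge tensors in an even number of variables correspond to Hodge tensors. -/
theorem del_reindex {K : Type} [Field K] [CharZero K] {P : Matrix B B K} {u : K}
    (h : ∀ (r : ℕ) (f : (Fin (2 * r) → B) → ℚ), IsH D f → ∃ f' : (Fin (2 * r) → B) → ℚ,
      IsH D₂ f' ∧ ∀ I, wl P (fun I => ((f' I : ℚ) : K)) I = u ^ r * ((f I : ℚ) : K))
    {r : ℕ} (hr : Fintype.card τ = 2 * r) {f : (τ → B) → ℚ} (hf : IsH D f) :
    ∃ f' : (τ → B) → ℚ, IsH D₂ f' ∧
      ∀ I, wl P (fun I => ((f' I : ℚ) : K)) I = u ^ r * ((f I : ℚ) : K) := by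
  obtain ⟨e⟩ : Nonempty (Fin (2 * r) ≃ τ) := ⟨(Fintype.equivFinOfCardEq hr).symm⟩
  obtain ⟨f', h1, h2⟩ := h r _ (isH_reindex e hf)
  refine ⟨fun I => f' (fun l => I (e l)), isH_reindex e.symm h1, fun I => ?_⟩
  have h3 := wl_reindex e P (fun I => ((f' I : ℚ) : K)) I
  rw [h3, h2]
  simp only [Equiv.apply_symm_apply]

end hdg

section cmp

variable {B : Type} [Fintype B] [DecidableEq B] {C : Type} [Fintype C] [DecidableEq C]
  {D D₂ : Matrix B B ℂ} {D' D₂' : Matrix C C ℂ} {dg : C → ℕ} {K : Type} [Field K] [CharZero K]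

theorem GG_mulT (X : Cmp D D₂ D' D₂' dg K)
    (hdel : ∀ (r : ℕ) (f : (Fin (2 * r) → B) → ℚ), IsH D f → ∃ f' : (Fin (2 * r) → B) → ℚ,
      IsH D₂ f' ∧ ∀ I, wl X.P (fun I => ((f' I : ℚ) : K)) I = X.u ^ r * ((f I : ℚ) : K))
    {κ : Type} [Fintype κ] [DecidableEq κ] {T : Finset κ} (hT : Even T.card)
    {f : ({l // l ∈ T} → B) → ℚ} (hf : IsH D f) {t : ({l // l ∉ T} → B) × C → ℚ}
    (ht : t ∈ GG X {l // l ∉ T}) : mulT T f t ∈ GG X κ := by
  rw [mem_GG] at ht ⊢
  intro b' i hbi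
  obtain ⟨r, hr⟩ := hT
  have h3 : Fintype.card κ = T.card + Fintype.card {l // l ∉ T} := by
    have h1 : Fintype.card {l // l ∉ T} = Fintype.card κ - Fintype.card {l // l ∈ T} :=
      Fintype.card_subtype_compl (fun l => l ∈ T)
    rw [Fintype.card_coe] at h1
    have h2 := Finset.card_le_univ T
    omega
  obtain ⟨j, rfl⟩ : ∃ j, i = j + r := ⟨i - r, by omega⟩
  obtain ⟨s', hs1, hs2, hs3⟩ := ht b' j (by omega)
  obtain ⟨f', hf1, hf2⟩ := del_reindex hdel (r := r) (by rw [Fintype.card_coe]; omega) hf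
  have hp : prj κ B dg b' (mulT T f t) = mulT T f (prj _ B dg b' t) := by
    funext p
    rw [prj_apply]
    unfold mulT
    rw [prj_apply]
    split_ifs
    · rfl
    · rw [mul_zero]
  rw [hp]
  refine ⟨mulT T f' s', HdgT_mulT hf1 hs1, fun p hp => ?_, fun p => ?_⟩
  · exact hs2 _ (right_ne_zero_of_mul hp)
  · have h4 : ∀ c', wl X.P (fun I => ((mulT T f' s' (I, c') : ℚ) : K)) p.1 =
        (X.u ^ r * ((f (fun l => p.1 l.1) : ℚ) : K)) *
          wl X.P (fun I => ((s' (I, c') : ℚ) : K)) (fun l => p.1 l.1) := by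
      intro c'
      have h5 : (fun I : κ → B => ((mulT T f' s' (I, c') : ℚ) : K)) =
          fun I => (fun I => ((f' I : ℚ) : K)) (fun l => I l.1) *
            (fun I => ((s' (I, c') : ℚ) : K)) (fun l => I l.1) := by
        funext I
        unfold mulT
        push_cast
        rfl
      have h6 := wl_mulT X.P T (fun I => ((f' I : ℚ) : K)) (fun I => ((s' (I, c') : ℚ) : K)) p.1
      rw [h5]
      refine h6.trans ?_
      rw [hf2]
    simp only [h4]
    have h6 : X.u ^ (j + r) * ((mulT T f (prj _ B dg b' t) p : ℚ) : K) =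
        (X.u ^ r * ((f (fun l => p.1 l.1) : ℚ) : K)) * (X.u ^ j *
          ((prj _ B dg b' t ((fun l => p.1 l.1), p.2) : ℚ) : K)) := by
      unfold mulT
      push_cast
      ring
    rw [h6, hs3, Finset.mul_sum]
    exact Finset.sum_congr rfl fun c' _ => by ring

/-- **Hodge tensors with values in a Hodge structure of level at most `w` are absolutely Hodge if
this is so for the tensors with at most `N` variables.** -/
theorem main_cm (b : CMBasis D) {w : ℤ} (hw : Bdd D' w) {N : ℕ} (hN : b.HasParts w N)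
    (X : Cmp D D₂ D' D₂' dg K)
    (hdel : ∀ (r : ℕ) (f : (Fin (2 * r) → B) → ℚ), IsH D f → ∃ f' : (Fin (2 * r) → B) → ℚ,
      IsH D₂ f' ∧ ∀ I, wl X.P (fun I => ((f' I : ℚ) : K)) I = X.u ^ r * ((f I : ℚ) : K))
    (hyp : ∀ (a b i : ℕ) (s : (Fin a → B) × C → ℚ), (a : ℤ) ≤ N → a + b = 2 * i →
      HdgT D D' s → (∀ p, s p ≠ 0 → dg p.2 = b) → s ∈ TR X (Fin a) b i)
    (κ : Type) [Fintype κ] [DecidableEq κ] (a i : ℕ) (t : (κ → B) × C → ℚ)
    (hbi : Fintype.card κ + a = 2 * i) (ht : HdgT D D' t) (htb : ∀ p, t p ≠ 0 → dg p.2 = a) :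
    t ∈ TR X κ a i := by
  have h1 : t ∈ GG X κ := cm_family b hw hN (fun κ _ _ => GG X κ)
    (fun κ _ _ hle t ht => GG_base X hyp (by exact_mod_cast hle) ht)
    (fun κ _ _ T f t _ hT hf ht => GG_mulT X hdel hT hf ht) _ κ rfl t ht
  have h2 := (mem_GG X t).1 h1 a i hbi
  rwa [prj_eq htb] at h2

end cmp

variable {B : Type} [Fintype B] [DecidableEq B]

/-- The rational tensor `f` in `H^1(A) ⊗ ... ⊗ H^1(A)`, `n` factors, is a Hodge class. -/
def IsHodgeTensor (D : Matrix B B ℂ) {n : ℕ} (f : (Fin n → B) → ℚ) : Prop :=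
  ∀ I : Fin n → B, ∑ l, ∑ j, D j (I l) * (f (Function.update I l j) : ℂ) = 0

/-- Deligne's theorem for the abelian variety `A`: the Hodge classes in `H^1(A) ⊗ ... ⊗ H^1(A) (r)`,
`2 r` factors, are absolutely Hodge. So the Hodge class `f` of `ρ A` corresponds to a Hodge class `f'` of
`ρ' A`. -/
def DeligneForA {v : ℕ} {X X' : Emb B v} {K : Type} [Field K] [CharZero K]
    (Q : Comparison X X' K) : Prop :=
  ∀ (r : ℕ) (f : (Fin (2 * r) → B) → ℚ), IsHodgeTensor X.D f →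
    ∃ f' : (Fin (2 * r) → B) → ℚ, IsHodgeTensor X'.D f' ∧ ∀ I : Fin (2 * r) → B,
      ∑ I' : Fin (2 * r) → B, (f' I' : K) * ∏ l, Q.P (I' l) (I l) = Q.u ^ r * (f I : K)

theorem isHodgeTensor_iff {D : Matrix B B ℂ} {n : ℕ} (f : (Fin n → B) → ℚ) :
    IsHodgeTensor D f ↔ IsH D f := by
  constructor
  · intro h
    funext I
    exact h I
  · intro h I
    exact congrFun h I

/-- **Deligne's conjecture for `A ^ m × Z`, `A` with complex multiplication.** -/
theorem deligne_cm {D : Matrix B B ℂ} (hD : IsCM D) (w : ℕ) : ∃ N : ℕ, ∀ (v : ℕ) (X X' : Emb B v),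
    X.D = D → Bdd X.V.z (w : ℤ) → ∀ (K : Type) [Field K] [CharZero K] (Q : Comparison X X' K),
      DeligneForA Q → Deligne Q N → ∀ m, Deligne Q m := by
  obtain ⟨b⟩ := hD.basis
  obtain ⟨N, hN⟩ := b.exists_hasParts (w : ℤ)
  refine ⟨N, fun v X X' hX hw K _ _ Q hA hQ m => ?_⟩
  subst hX
  refine deligne_of_tensors Q m fun a b' i s hab hs hsb => ?_
  refine main_cm b hw hN (toCmp Q) (fun r f hf => ?_) (fun a b' i s ha hab hs hsb => ?_) (Fin a)
    b' i s (by rw [Fintype.card_fin]; exact hab) hs hsb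
  · obtain ⟨f', h1, h2⟩ := hA r f ((isHodgeTensor_iff f).2 hf)
    exact ⟨f', (isHodgeTensor_iff f').1 h1, h2⟩
  · exact tensors_of_deligne Q hQ a b' i s (by exact_mod_cast ha) hab hs hsb

end

end Pool.Agent.K6.H94.CM
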