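import Mathlib

/-!
# The Hodge operator of abelian varieties of given CM types
-/

set_option autoImplicit false

namespace Pool.Agent.K6.H94.CM

open Matrix

/-- Let `A` be the product of the abelian varieties of CM types `(E i, Φ i)`, so that
`H_1(A, ℚ) = ∏ E i`, and let `β` be a basis of this space over `ℚ`. The matrix `D` is the Hodge operator
on `H_1(A, ℂ)` in this basis: the linear form on `H_1(A, ℂ)` defined by the embedding `φ` of `E i` in `ℂ`
is multiplied by `1` if `φ` belongs to `Φ i`, and by `-1` if not. (The tangent space is the quotient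
on which the `φ` in `Φ i` are coordinates.) -/
def IsHodgeOperator {ι B : Type} [Fintype B] {E : ι → Type} [∀ i, Field (E i)]
    [∀ i, Algebra ℚ (E i)] (Φ : ∀ i, Set (E i →+* ℂ)) (β : Module.Basis B ℚ (∀ i, E i))
    (D : Matrix B B ℂ) : Prop :=
  ∀ (i : ι) (φ : E i →+* ℂ) (j : B), (φ ∈ Φ i → ∑ k, φ (β k i) * D k j = φ (β j i)) ∧
    (φ ∉ Φ i → ∑ k, φ (β k i) * D k j = -φ (β j i))

end Pool.Agent.K6.H94.CM
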