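import Mathlib
import Pool.Agent.K6.H94.CM.Defs
import Pool.Agent.K6.H94.CM.FieldsDefs

/-!
# Abelian varieties of given CM types have complex multiplication
-/

namespace Pool.Agent.K6.H94.CM

open Matrix

theorem isCM_of_fields {ι B : Type} [Fintype ι] [Fintype B] [DecidableEq B] {E : ι → Type}
    [∀ i, Field (E i)] [∀ i, NumberField (E i)] {Φ : ∀ i, Set (E i →+* ℂ)}
    (β : Module.Basis B ℚ (∀ i, E i)) {D : Matrix B B ℂ} (hD : IsHodgeOperator Φ β D) :
    IsCM D := by
  classical
  let S := Σ i, (E i →+* ℂ)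
  have hcard : Fintype.card S = Fintype.card B := by
    have h1 : Module.finrank ℚ (∀ i, E i) = Fintype.card B := Module.finrank_eq_card_basis β
    rw [Module.finrank_pi_fintype] at h1
    rw [← h1, Fintype.card_sigma]
    exact Finset.sum_congr rfl fun i _ => NumberField.Embeddings.card (E i) ℂ
  let q : B ≃ S := Fintype.equivOfCardEq hcard.symm
  let e : Matrix B B ℂ := Matrix.of fun s j => (q s).2 (β j (q s).1)
  -- linear independence
  have hlin : ∀ c : B → ℂ, (∀ j, ∑ s, c s * e s j = 0) → c = 0 := by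
    intro c hc
    have h1 : ∀ x : (∀ i, E i), ∑ s, c s * (q s).2 (x (q s).1) = 0 := by
      intro x
      have h2 : ∀ s, (q s).2 (x (q s).1) = ∑ j, ((β.repr x j : ℚ) : ℂ) * e s j := by
        intro s
        have h3 := β.sum_repr x
        have h4 : x (q s).1 = ∑ j, β.repr x j • β j (q s).1 := by
          conv_lhs => rw [← h3]
          rw [Finset.sum_apply]
          rfl
        rw [h4, map_sum]
        refine Finset.sum_congr rfl fun j _ => ?_
        rw [Algebra.smul_def, map_mul]
        congr 1
        rw [eq_ratCast, map_ratCast]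
      simp only [h2, Finset.mul_sum]
      rw [Finset.sum_comm]
      refine Finset.sum_eq_zero fun j _ => ?_
      have h5 : ∑ s, c s * (((β.repr x j : ℚ) : ℂ) * e s j) =
          ((β.repr x j : ℚ) : ℂ) * ∑ s, c s * e s j := by
        rw [Finset.mul_sum]
        exact Finset.sum_congr rfl fun s _ => by ring
      rw [h5, hc, mul_zero]
    funext s
    obtain ⟨i, hi⟩ : ∃ i, i = (q s).1 := ⟨_, rfl⟩
    -- the embeddings of the field `E i` are linearly independent
    have h2 : ∀ y : E i, ∑ φ : E i →+* ℂ, c (q.symm ⟨i, φ⟩) * φ y = 0 := by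
      intro y
      have h3 := h1 (Pi.single i y)
      rw [← h3]
      let g : S → ℂ := fun t => t.2 ((Pi.single i y : ∀ i, E i) t.1)
      have hg : ∀ t : S, g (q (q.symm t)) = g t := fun t => congrArg g (q.apply_symm_apply t)
      change _ = ∑ s, c s * g (q s)
      rw [← Equiv.sum_comp q.symm, Fintype.sum_sigma, Finset.sum_eq_single i]
      · refine Finset.sum_congr rfl fun φ _ => ?_
        rw [hg]
        change _ = c (q.symm ⟨i, φ⟩) * φ ((Pi.single i y : ∀ i, E i) i)
        rw [Pi.single_eq_same]
      · intro i' _ hi'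
        refine Finset.sum_eq_zero fun φ _ => ?_
        rw [hg]
        change c (q.symm ⟨i', φ⟩) * φ ((Pi.single i y : ∀ i, E i) i') = 0
        rw [Pi.single_eq_of_ne hi', map_zero, mul_zero]
      · intro h
        exact absurd (Finset.mem_univ _) h
    have h3 : LinearIndependent ℂ (fun φ : E i →+* ℂ => ((φ : E i →* ℂ) : E i → ℂ)) := by
      have h4 := linearIndependent_monoidHom (E i) ℂ
      exact h4.comp (fun φ : E i →+* ℂ => (φ : E i →* ℂ)) (fun φ ψ h => by
        ext x
        exact DFunLike.congr_fun h x)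
    have h4 := Fintype.linearIndependent_iff.1 h3 (fun φ => c (q.symm ⟨i, φ⟩)) (by
      funext y
      rw [Finset.sum_apply]
      exact h2 y)
    have h5 := h4 (hi ▸ (q s).2)
    have h6 : (⟨i, hi ▸ (q s).2⟩ : S) = q s := by
      subst hi
      rfl
    have h7 : c (q.symm ⟨i, hi ▸ (q s).2⟩) = 0 := h5
    rw [h6, Equiv.symm_apply_apply] at h7
    exact h7
  have hunit : IsUnit e := by
    rw [← Matrix.vecMul_injective_iff_isUnit]
    intro c c' hcc
    have h1 : c - c' = 0 := hlin _ fun j => by
      have h2 := congrFun hcc j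
      have h3 : ∑ s, c s * e s j = ∑ s, c' s * e s j := h2
      simp only [Pi.sub_apply, sub_mul, Finset.sum_sub_distrib]
      rw [h3, sub_self]
    exact sub_eq_zero.1 h1
  refine ⟨e, fun s => if (q s).2 ∈ Φ (q s).1 then 1 else -1, hunit, fun s => ?_, ?_, fun σ => ?_⟩
  · by_cases h : (q s).2 ∈ Φ (q s).1
    · exact Or.inl (if_pos h)
    · exact Or.inr (if_neg h)
  · ext s j
    rw [Matrix.mul_apply, Matrix.diagonal_mul]
    have h1 := hD (q s).1 (q s).2 j
    by_cases h : (q s).2 ∈ Φ (q s).1
    · have h2 : (fun s => if (q s).2 ∈ Φ (q s).1 then (1 : ℤ) else -1) s = 1 := if_pos h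
      rw [h2, Int.cast_one, one_mul]
      exact h1.1 h
    · have h2 : (fun s => if (q s).2 ∈ Φ (q s).1 then (1 : ℤ) else -1) s = -1 := if_neg h
      rw [h2, Int.cast_neg, Int.cast_one, neg_one_mul]
      exact h1.2 h
  · let τ : S ≃ S := Equiv.sigmaCongrRight fun i =>
      { toFun := fun φ => (σ : ℂ →+* ℂ).comp φ
        invFun := fun φ => (σ.symm : ℂ →+* ℂ).comp φ
        left_inv := fun φ => by
          ext x
          exact σ.symm_apply_apply _
        right_inv := fun φ => by
          ext x
          exact σ.apply_symm_apply _ }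
    refine ⟨(q.trans τ).trans q.symm, fun s j => ?_⟩
    change σ ((q s).2 (β j (q s).1)) = (q (q.symm (τ (q s)))).2 (β j (q (q.symm (τ (q s)))).1)
    rw [Equiv.apply_symm_apply]
    rfl

end Pool.Agent.K6.H94.CM
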